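import Pool.Agent.Y790.TG.Fin
import Pool.Agent.Y790.TG.Decomp
import Pool.Agent.Y790.TG.Cay

/-!
# Decompositions of `n`-regular bipartite graphs into copies of trees with few leaves

For every `k` all but finitely many trees with at most `k` leaves have an `α`-labelling
(`Pool.Agent.Y790.TG.allTreeG`, the construction is described in `MP_5799c5_co/FewLeaves`).  Let `n` be the
number of edges of such a tree `T`.  The translates of one copy of `T` decompose `K_{n,n}` and, more generally,
the `n`-regular bipartite graphs with the parts `Γ` and `Γ`, `Γ` a group, in which `x` in the first part is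
adjacent to `x s, x d s, …, x d ^ (n - 1) s` in the second part.
-/

set_option autoImplicit false

namespace Pool.Agent.Results.MP_c5b475_co.FewLeaves

/-- `G` decomposes `H`: there is a family of injective maps `φ i` of the vertices of `G` to the vertices of
`H` such that edges go to edges and every edge of `H` is the image of exactly one edge of `G` under exactly
one of the maps. -/
def Decomposes {V W : Type} (G : SimpleGraph V) (H : SimpleGraph W) : Prop :=
  ∃ (ι : Type) (φ : ι → V → W), (∀ i, Function.Injective (φ i)) ∧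
    (∀ i u v, G.Adj u v → H.Adj (φ i u) (φ i v)) ∧
    ∀ e ∈ H.edgeSet, ∃! p : ι × G.edgeSet, Sym2.map (φ p.1) p.2.val = e

/-- For every `k` there is `N` such that every finite tree `T` with at most `k` leaves (vertices of degree
one), at least `N` vertices and `n` edges decomposes `K_{n,n}`, and every bipartite graph with the parts `Γ`
and `Γ` (`Γ` a group) in which `x` in the first part is adjacent to the `n` different elements
`x s, x d s, …, x d ^ (n - 1) s` of the second part. -/
theorem result (k : ℕ) : ∃ N : ℕ, 2 ≤ N ∧ ∀ (V : Type) [Fintype V] (T : SimpleGraph V) (n : ℕ), T.IsTree →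
    {x : V | (T.neighborSet x).ncard = 1}.ncard ≤ k → N ≤ Fintype.card V → T.edgeSet.ncard = n →
    Decomposes T (completeBipartiteGraph (Fin n) (Fin n)) ∧
    ∀ (Γ : Type) [Group Γ] (d s : Γ) (H : SimpleGraph (Γ ⊕ Γ)),
      (∀ i j : ℕ, i < n → j < n → d ^ i * s = d ^ j * s → i = j) →
      (∀ x y : Γ, H.Adj (Sum.inl x) (Sum.inr y) ↔ ∃ i < n, y = x * (d ^ i * s)) →
      (∀ x y : Γ, ¬ H.Adj (Sum.inl x) (Sum.inl y)) → (∀ x y : Γ, ¬ H.Adj (Sum.inr x) (Sum.inr y)) →
      Decomposes T H := by
  obtain ⟨N, hN⟩ := Pool.Agent.Y790.TG.allTreeG k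
  refine ⟨max 2 N, le_max_left _ _, ?_⟩
  rintro V _ T m hT hk hV rfl
  have h2 : 2 ≤ Fintype.card V := (le_max_left _ _).trans hV
  have hA := hN V T hT hk ((le_max_right _ _).trans hV)
  have h3 := (Pool.Agent.Y790.TG.decomp V T hT h2 hA 1 1 le_rfl le_rfl).1
  rw [mul_one] at h3
  exact ⟨h3, Pool.Agent.Y790.TG.biCay V T hT h2 hA⟩

end Pool.Agent.Results.MP_c5b475_co.FewLeaves
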